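import Pool.Agent.Helper94_SQS.Stmts

/-!
# SQS, module BIG
-/

set_option autoImplicit false

namespace Pool.Agent.SQS.H81

open Pool.Agent.SQS

theorem big (h : SmallStmt) : BigStmt := by
  refine ⟨?_, ?_, ?_, ?_, ?_⟩
  · intro Y Y' hY hB k
    obtain ⟨N, hN⟩ := hB k
    refine ⟨N, fun n hn => ?_⟩
    obtain ⟨G, hG, hH⟩ := hN n hn
    exact ⟨G, hG, fun H hc hGH => hY (hH H hc hGH)⟩
  · classical
    intro Y Y' hY hY' k
    obtain ⟨N, hN⟩ := hY (2 * k)
    obtain ⟨N', hN'⟩ := hY' (2 * k)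
    refine ⟨max N N', fun n hn => ?_⟩
    obtain ⟨G, hG, hH⟩ := hN n (le_trans (le_max_left _ _) hn)
    obtain ⟨G', hG', hH'⟩ := hN' n (le_trans (le_max_right _ _) hn)
    refine ⟨G ∪ G', ?_, fun H hc hGH => ⟨hH H hc ?_, hH' H hc ?_⟩⟩
    · have h1 : (G ∪ G').card ≤ G.card + G'.card := Finset.card_union_le _ _
      have h2 : k * (G ∪ G').card ≤ k * (G.card + G'.card) := Nat.mul_le_mul_left k h1
      have h3 : 2 * (k * (G.card + G'.card)) = 2 * k * G.card + 2 * k * G'.card := by ring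
      omega
    · exact (Finset.subset_union_left).trans hGH
    · exact (Finset.subset_union_right).trans hGH
  · intro Y hY
    obtain ⟨N, hN⟩ := hY 1
    obtain ⟨G, hG, hH⟩ := hN N le_rfl
    have hc : G.card ≤ N := by omega
    exact ⟨_, hH G hc (Finset.Subset.refl G)⟩
  · intro m k
    refine ⟨m.1 + 1, fun n hn => ⟨∅, by simp, fun H hc _ => ?_⟩⟩
    intro heq
    have h1 : n = m.1 := congrArg Sigma.fst (Set.mem_singleton_iff.1 heq)
    omega
  · intro ζ k
    obtain ⟨N, hN⟩ := h ζ k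
    exact ⟨N, fun n hn => ⟨X ζ n, hN n hn, fun H hc hGH => hGH⟩⟩

end Pool.Agent.SQS.H81
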