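import Pool.Agent.Helper94_SQS.Stmts

/-!
# SQS, module CLO
-/

set_option autoImplicit false

namespace Pool.Agent.SQS.H81

open Pool.Agent.SQS

theorem cont_dec {T : Type} [TopologicalSpace T] {P : T → Prop} (hP : IsClopen {t | P t}) :
    Continuous fun t => @decide (P t) (Classical.propDecidable _) := by
  rw [continuous_discrete_rng]
  intro b
  cases b
  · have : (fun t => @decide (P t) (Classical.propDecidable _)) ⁻¹' {false} = {t | P t}ᶜ := by
      ext t; simp
    rw [this]
    exact hP.compl.isOpen
  · have : (fun t => @decide (P t) (Classical.propDecidable _)) ⁻¹' {true} = {t | P t} := by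
      ext t; simp
    rw [this]
    exact hP.isOpen

theorem cont_or {T : Type} [TopologicalSpace T] {f g : T → Bool} (hf : Continuous f)
    (hg : Continuous g) : Continuous fun t => f t || g t := by
  have h : Continuous fun q : Bool × Bool => q.1 || q.2 := continuous_of_discreteTopology
  exact h.comp (hf.prodMk hg)

theorem clopen_true {T : Type} [TopologicalSpace T] {f : T → Bool} (hf : Continuous f) :
    IsClopen {t | f t = true} :=
  (isClopen_discrete ({true} : Set Bool)).preimage hf

theorem cont_yb (m : M) (ζ : Z) : Continuous fun w : ℕ ⊕ Z → Bool => yb m w ζ := by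
  induction ζ with
  | nil =>
    simp only [yb]
    exact continuous_apply _
  | pt x =>
    simp only [yb]
    exact cont_or (continuous_apply _) continuous_const
  | cl n v =>
    simp only [yb]
    refine cont_or (continuous_apply _) (cont_dec ?_)
    have : {w : ℕ ⊕ Z → Bool | ∀ i, i < n → w (Sum.inl i) = v i} =
        ⋂ i ∈ Finset.range n, {w : ℕ ⊕ Z → Bool | w (Sum.inl i) = v i} := by
      ext w; simp
    rw [this]
    refine Set.Finite.isClopen_biInter (Finset.range n).finite_toSet fun i _ => ?_
    exact (isClopen_discrete ({v i} : Set Bool)).preimage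
      (continuous_apply (Sum.inl i : ℕ ⊕ Z))
  | sq ξ ih =>
    simp only [yb]
    refine cont_or (continuous_apply _) (cont_dec ?_)
    have : {w : ℕ ⊕ Z → Bool | ∃ k, act ξ k m.1 ∧ yb m w (ξ k) = true} =
        ⋃ k ∈ {k | act ξ k m.1}, {w : ℕ ⊕ Z → Bool | yb m w (ξ k) = true} := by
      ext w; simp
    rw [this]
    have hfin : {k | act ξ k m.1}.Finite :=
      (Set.finite_lt_nat m.1).subset fun k hk => hk.1
    exact hfin.isClopen_biUnion fun k _ => clopen_true (ih k)

theorem ok_clo (m : M) (w : ℕ ⊕ Z → Bool) : Ok (clo m w) := by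
  have hpa : ∀ m', pa (clo m w) m' = true ↔ m' = m := by
    intro m'
    simp [pa, clo]
  have hpy : ∀ ζ, py (clo m w) ζ = yb m w ζ := fun ζ => rfl
  have hpu : ∀ i, pu (clo m w) i = w (Sum.inl i) := fun i => rfl
  refine ⟨?_, ?_, ?_, ?_⟩
  · intro m1 m2 h1 h2
    rw [(hpa m1).1 h1, (hpa m2).1 h2]
  · intro m1 x h1 h2
    obtain rfl := (hpa m1).1 h1
    rw [hpy]
    simp [yb, h2]
  · intro n v h
    rw [hpy]
    have h' : ∀ i, i < n → w (Sum.inl i) = v i := fun i hi => h i hi
    simp only [yb, Bool.or_eq_true, decide_eq_true_eq]
    exact Or.inr h'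
  · intro ξ k h
    by_cases ha : act ξ k m.1
    · left
      rw [hpy]
      simp only [yb, Bool.or_eq_true, decide_eq_true_eq]
      exact Or.inr ⟨k, ha, h⟩
    · right
      exact ⟨m, (hpa m).2 rfl, ha⟩

theorem yb_self (m : M) (p : Idx → Bool) (hp : Ok p) (hm : pa p m = true) (ζ : Z) :
    yb m (fun j => p (Sum.inr j)) ζ = py p ζ := by
  induction ζ with
  | nil => rfl
  | pt x =>
    simp only [yb]
    by_cases h : res m.1 x ∉ m.2.1
    · rw [hp.rpt m x hm h]
      simp [h]
    · simp only [h, decide_false, Bool.or_false]
      rfl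
  | cl n v =>
    simp only [yb]
    by_cases h : ∀ i, i < n → p (Sum.inr (Sum.inl i)) = v i
    · rw [hp.rcl n v h]
      have : @decide (∀ i, i < n → p (Sum.inr (Sum.inl i)) = v i)
          (Classical.propDecidable _) = true := by
        simp only [decide_eq_true_eq]
        exact h
      rw [this, Bool.or_true]
    · have : @decide (∀ i, i < n → p (Sum.inr (Sum.inl i)) = v i)
          (Classical.propDecidable _) = false := by
        simp only [decide_eq_false_iff_not]
        exact h
      rw [this, Bool.or_false]
      rfl
  | sq ξ ih =>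
    simp only [yb]
    by_cases h : ∃ k, act ξ k m.1 ∧ yb m (fun j => p (Sum.inr j)) (ξ k) = true
    · have h2 : py p (Z.sq ξ) = true := by
        obtain ⟨k, hk, hk2⟩ := h
        rw [ih k] at hk2
        rcases hp.rsq ξ k hk2 with h3 | ⟨m', hm', hna⟩
        · exact h3
        · rw [hp.uniq m' m hm' hm] at hna
          exact absurd hk hna
      have : @decide (∃ k, act ξ k m.1 ∧ yb m (fun j => p (Sum.inr j)) (ξ k) = true)
          (Classical.propDecidable _) = true := by
        simp only [decide_eq_true_eq]
        exact h
      rw [this, Bool.or_true, h2]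
    · have : @decide (∃ k, act ξ k m.1 ∧ yb m (fun j => p (Sum.inr j)) (ξ k) = true)
          (Classical.propDecidable _) = false := by
        simp only [decide_eq_false_iff_not]
        exact h
      rw [this, Bool.or_false]
      rfl

theorem X_act_subset (ξ : ℕ → Z) (k n : ℕ) (h : act ξ k n) : X (ξ k) n ⊆ X (Z.sq ξ) n := by
  intro s hs
  simp only [X, Finset.mem_biUnion, Finset.mem_range]
  refine ⟨k, h.1, ?_⟩
  rw [if_pos h.2]
  exact hs

theorem yb_inf (m : M) (p : Idx → Bool) (hp : Ok p) (hm : ∀ m', pa p m' = false) (ζ : Z) :
    X ζ m.1 ⊆ m.2.1 → yb m (fun j => p (Sum.inr j)) ζ = py p ζ := by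
  induction ζ with
  | nil => intro _; rfl
  | pt x =>
    intro hX
    simp only [yb]
    have h : ¬ (res m.1 x ∉ m.2.1) := by
      rw [not_not]
      apply hX
      simp [X]
    simp only [h, decide_false, Bool.or_false]
    rfl
  | cl n v =>
    intro _
    simp only [yb]
    by_cases h : ∀ i, i < n → p (Sum.inr (Sum.inl i)) = v i
    · rw [hp.rcl n v h]
      have : @decide (∀ i, i < n → p (Sum.inr (Sum.inl i)) = v i)
          (Classical.propDecidable _) = true := by
        simp only [decide_eq_true_eq]
        exact h
      rw [this, Bool.or_true]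
    · have : @decide (∀ i, i < n → p (Sum.inr (Sum.inl i)) = v i)
          (Classical.propDecidable _) = false := by
        simp only [decide_eq_false_iff_not]
        exact h
      rw [this, Bool.or_false]
      rfl
  | sq ξ ih =>
    intro hX
    simp only [yb]
    by_cases h : ∃ k, act ξ k m.1 ∧ yb m (fun j => p (Sum.inr j)) (ξ k) = true
    · have h2 : py p (Z.sq ξ) = true := by
        obtain ⟨k, hk, hk2⟩ := h
        rw [ih k ((X_act_subset ξ k m.1 hk).trans hX)] at hk2
        rcases hp.rsq ξ k hk2 with h3 | ⟨m', hm', hna⟩
        · exact h3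
        · rw [hm m'] at hm'
          exact absurd hm' Bool.false_ne_true
      have : @decide (∃ k, act ξ k m.1 ∧ yb m (fun j => p (Sum.inr j)) (ξ k) = true)
          (Classical.propDecidable _) = true := by
        simp only [decide_eq_true_eq]
        exact h
      rw [this, Bool.or_true, h2]
    · have : @decide (∃ k, act ξ k m.1 ∧ yb m (fun j => p (Sum.inr j)) (ξ k) = true)
          (Classical.propDecidable _) = false := by
        simp only [decide_eq_false_iff_not]
        exact h
      rw [this, Bool.or_false]
      rfl

theorem clo : CloStmt := by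
  refine ⟨ok_clo, ?_, ?_, ?_⟩
  · intro m
    refine continuous_pi fun i => ?_
    rcases i with m' | i | ζ
    · exact continuous_const
    · exact continuous_apply (Sum.inl i : ℕ ⊕ Z)
    · exact cont_yb m ζ
  · intro m p hp hm
    funext i
    rcases i with m' | i | ζ
    · simp only [SQS.clo]
      by_cases h : m' = m
      · rw [h]
        have : p (Sum.inl m) = true := hm
        simp [this]
      · have h2 : p (Sum.inl m') = false := by
          by_contra hne
          have h3 : pa p m' = true := by
            change p (Sum.inl m') = true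
            simpa using hne
          exact h (hp.uniq m' m h3 hm)
        rw [h2]
        simp [h]
    · rfl
    · exact yb_self m p hp hm ζ
  · intro m p ζ hp hm hX
    exact yb_inf m p hp hm ζ hX

end Pool.Agent.SQS.H81
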